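import Pool.Agent.J6H24.EQ.Alm4

/-!
# Galois orbits of almost all special points of products of modular curves
-/

set_option autoImplicit false

namespace Pool.Agent.Results.MP_ad7a55_nt.AlmostAllPoints

open MeasureTheory Filter Topology Pool.Agent.J6H24.EQ

/-- There is a set `G` of special points of the product such that in every product of orbits of CM
points with large discriminants most points belong to `G`, and such that the orbits of every sequence
of points of `G`, the discriminants of the coordinates of which tend to infinity, are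
equidistributed. The discriminants and the CM fields of the coordinates are arbitrary, they may be
equal. -/
theorem result {Γ : Type} [Group Γ] {F : Subgroup Γ} {J : Type} [Fintype J] [Nonempty J]
    {P Y : J → Type} [∀ j, MulAction F (P j)] [∀ j, TopologicalSpace (Y j)]
    [∀ j, LocallyCompactSpace (Y j)] [∀ j, T2Space (Y j)] [∀ j, SecondCountableTopology (Y j)]
    [∀ j, MeasurableSpace (Y j)] [∀ j, BorelSpace (Y j)] {pt : ∀ j, P j → Y j}
    {K H : ∀ j, P j → Subgroup Γ} {D : ∀ j, P j → ℕ} {m : ∀ j, Measure (Y j)}
    [∀ j, IsProbabilityMeasure (m j)] (hP : ∀ j, Packets F (pt j) (K j) (H j) (D j) (m j)) :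
    ∃ G : Set (∀ j, P j), (∀ ε : ℝ, 0 < ε → ∃ D₀ : ℕ, ∀ x : ∀ j, P j, (∀ j, D₀ ≤ D j (x j)) →
      (1 - ε) * (box F x).ncard ≤ ((G ∩ box F x).ncard : ℝ)) ∧
      ∀ x : ℕ → ∀ j, P j, (∀ i, x i ∈ G) → (∀ j, Tendsto (fun i => D j (x i j)) atTop atTop) →
        Equidistributed F pt m x := by
  classical
  exact density hP

end Pool.Agent.Results.MP_ad7a55_nt.AlmostAllPoints
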