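import Pool.Agent.J6H24.EQ.Fib

/-!
# Galois orbits of special points of products of modular curves, fields of large relative degree
-/

set_option autoImplicit false

namespace Pool.Agent.Results.MP_ad7a55_nt.CommonCMField

open MeasureTheory Filter Topology Pool.Agent.J6H24.EQ

/-- Suppose that no CM point is a coordinate infinitely often and that for every set `S` of at least
two coordinates and every `B`, for almost all `i`, either some coordinate `j ∈ S` of `x i` has a CM field
which is different from those of the other coordinates in `S`, or the coordinates in `S` have the same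
CM field and the field of some coordinate `j ∈ S` has degree at least `B` over the compositum of the
fields of the other coordinates in `S`. Then the orbits of the points `x i` are equidistributed. -/
theorem result {Γ : Type} [Group Γ] {F : Subgroup Γ} (hF : F.index ≠ 0) {J : Type} [Fintype J]
    [DecidableEq J] {P Y : J → Type} [∀ j, MulAction F (P j)] [∀ j, TopologicalSpace (Y j)]
    [∀ j, LocallyCompactSpace (Y j)] [∀ j, T2Space (Y j)] [∀ j, SecondCountableTopology (Y j)]
    [∀ j, MeasurableSpace (Y j)] [∀ j, BorelSpace (Y j)] {pt : ∀ j, P j → Y j}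
    {K H R : ∀ j, P j → Subgroup Γ} {D : ∀ j, P j → ℕ} {m : ∀ j, Measure (Y j)}
    [∀ j, IsProbabilityMeasure (m j)] {b : ℕ} {η : ℝ} (hη : 0 < η)
    (hP : ∀ j, CMPoints F (pt j) (K j) (H j) (R j) (D j) (m j) b η) (hB : Fibres F pt K H D m)
    (x : ℕ → ∀ j, P j) (hx : ∀ j (y : P j), {i | x i j = y}.Finite)
    (hS : ∀ S : Finset J, 2 ≤ S.card → ∀ B : ℕ, ∀ᶠ i in atTop, ∃ j ∈ S,
      (∀ k ∈ S, K k (x i k) = K j (x i j) → k = j) ∨
      ((∀ k ∈ S, K k (x i k) = K j (x i j)) ∧ B ≤ degree F K H (x i) (S.erase j) j)) :
    Equidistributed F pt m x :=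
  joint_fib hF hP hη hB x hx hS

end Pool.Agent.Results.MP_ad7a55_nt.CommonCMField
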