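import Pool.Agent.J6H24.EQ.Eq

/-!
# Galois orbits of special points of products of modular curves, different CM fields
-/

set_option autoImplicit false

namespace Pool.Agent.Results.MP_ad7a55_nt.DifferentCMFields

open MeasureTheory Filter Topology Pool.Agent.J6H24.EQ

/-- If no CM point is a coordinate infinitely often and in every set `S` of coordinates there is
eventually one whose field has little in common with the fields of the other coordinates in `S` with
the same CM field, in particular if the CM fields of the coordinates are different, then the orbits of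
the special points `x i` of the product are equidistributed. -/
theorem result {Γ : Type} [Group Γ] {F : Subgroup Γ} (hF : F.index ≠ 0) {J : Type} [Fintype J]
    {P Y : J → Type} [∀ j, MulAction F (P j)] [∀ j, TopologicalSpace (Y j)]
    [∀ j, LocallyCompactSpace (Y j)] [∀ j, T2Space (Y j)] [∀ j, SecondCountableTopology (Y j)]
    [∀ j, MeasurableSpace (Y j)] [∀ j, BorelSpace (Y j)] {pt : ∀ j, P j → Y j}
    {K H R : ∀ j, P j → Subgroup Γ} {D : ∀ j, P j → ℕ} {m : ∀ j, Measure (Y j)}
    [∀ j, IsProbabilityMeasure (m j)] {b : ℕ} {η : ℝ} (hη : 0 < η)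
    (hP : ∀ j, CMPoints F (pt j) (K j) (H j) (R j) (D j) (m j) b η)
    (x : ℕ → ∀ j, P j) (hx : ∀ j (y : P j), {i | x i j = y}.Finite) :
    ((∀ᶠ i in atTop, ∀ j k, K j (x i j) = K k (x i k) → j = k) → Equidistributed F pt m x) ∧
    ∀ η' < η, (∀ S : Finset J, S.Nonempty → ∀ᶠ i in atTop, ∃ j ∈ S,
      Apart (fun k => K k (x i k)) (fun k => H k (x i k)) (fun k => D k (x i k)) S j η') →
      Equidistributed F pt m x := by
  classical
  refine ⟨fun h => ?_, fun η' hη' hS => joint hF hP hη' x hx hS⟩
  refine joint (η' := η / 2) hF hP (by linarith) x hx fun S hS => ?_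
  obtain ⟨j, hj⟩ := hS
  filter_upwards [h, large hP x hx 0 j] with i hi hD
  exact ⟨j, hj, apart_of_ne (by linarith) (fun k _ hk => hi k j hk) hD⟩

end Pool.Agent.Results.MP_ad7a55_nt.DifferentCMFields
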